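import Mathlib
import Pool.Agent.Q163.ER.Fin

set_option autoImplicit false

/-!
# Elliott's conjecture for almost every first function and all other functions, uniformly

Let `f₁ = g x`, where `g` is a multiplicative function with values in the unit disc and on the unit circle at the
primes, and `x` is the random completely multiplicative function with independent fair signs at the primes of a
set `P` and the value `1` at the other primes; the sum of `1/p` over the `p ∈ P`, `log log N < p ≤ N`, tends to
infinity (all primes, or sparse sets of primes). For almost every choice of the signs, for every `k` and all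
shifts, ALL multiplicative functions `f_2, …, f_k` with values in the unit disc (which may depend on the signs
and on the scale `X`), all linear phases and all partial sums, the correlations
`f₁(n + h₁) f_2(n + h_2) ⋯ f_k(n + h_k)` are small at almost all scales `N ≤ X`, with a threshold `X₀` which
does not depend on `f_2, …, f_k`.
-/

namespace Pool.Agent.Results.MP_f3f922_nt.AllOthersArbitrary

open Finset Filter Topology MeasureTheory ProbabilityTheory

/-- multiplicative functions with values in the unit disc (on the positive integers) -/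
def Mult (f : ℕ → ℂ) : Prop := (∀ n, 1 ≤ n → ‖f n‖ ≤ 1) ∧
  ∀ m n : ℕ, 1 ≤ m → 1 ≤ n → Nat.Coprime m n → f (m * n) = f m * f n

/-- `e(x) = exp(2 π i x)` -/
noncomputable def e (x : ℝ) : ℂ := Complex.exp (2 * Real.pi * x * Complex.I)

open Classical in
/-- the sum of `1 / p` over the primes `p ∈ P` with `⌊log log N⌋ < p ≤ N` tends to infinity -/
def Thick (P : Set ℕ) : Prop := Tendsto (fun N : ℕ =>
  ∑ p ∈ (Ioc ⌊Real.log (Real.log N)⌋₊ N).filter (fun p => p.Prime ∧ p ∈ P), (1 : ℝ) / p) atTop atTop

open Classical in
/-- the random function: completely multiplicative with the value `1` or `-1` at the primes `p ∈ P`,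
according to `ω p`, and the value `1` at the other primes -/
noncomputable def rand (P : Set ℕ) (ω : ℕ → Bool) (n : ℕ) : ℝ :=
  ∏ p ∈ n.primeFactors, (if p ∈ P then (if ω p = true then 1 else -1) else 1) ^ n.factorization p

/-- independent fair coins -/
noncomputable def coins : Measure (ℕ → Bool) := Pool.Agent.Q163.RX.cm

/-- **Theorem.** For almost every choice of the signs, all `k` (here the number of the further functions), all
shifts `h_j ≠ h₀` and all `ε > 0` there is `X₀` such that for all `X ≥ X₀` and ALL multiplicative functions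
`f_1, …, f_k` with values in the unit disc, with `F(n) = (g x)(n + h₀) f_1(n + h_1) ⋯ f_k(n + h_k)`:
the average of `|(1/N) ∑_{n ≤ y_N} F(n) e(α_N n)|` over the scales `N ≤ X` (with the weights `1/N`) is at most
`ε log X`, for all phases `α_N` and partial sums `y_N ≤ N`; and `|∑_{n ≤ X} F(n) e(α n) / n| ≤ ε log X`. -/
theorem result (P : Set ℕ) (hP : Thick P) (g : ℕ → ℂ) (hg : Mult g) (hp : ∀ p : ℕ, p.Prime → ‖g p‖ = 1) :
    ∀ᵐ ω ∂coins, ∀ (k h₀ : ℕ) (h : Fin k → ℕ), (∀ j, h j ≠ h₀) → ∀ ε : ℝ, 0 < ε → ∃ X₀ : ℕ, ∀ X : ℕ, X₀ ≤ X →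
      ∀ f : Fin k → ℕ → ℂ, (∀ j, Mult (f j)) →
        (∀ (α : ℕ → ℝ) (y : ℕ → ℕ), (∀ N, y N ≤ N) →
          ∑ N ∈ Icc 1 X, ‖∑ n ∈ Icc 1 (y N), g (n + h₀) * (rand P ω (n + h₀) : ℂ) * (∏ j, f j (n + h j)) *
            e (α N * n)‖ / (N : ℝ) ^ 2 ≤ ε * Real.log X) ∧
        ∀ α : ℝ, ‖∑ n ∈ Icc 1 X, g (n + h₀) * (rand P ω (n + h₀) : ℂ) * (∏ j, f j (n + h j)) *
            e (α * n) / (n : ℂ)‖ ≤ ε * Real.log X :=
  Pool.Agent.Q163.ER.fin P hP g hg hp

end Pool.Agent.Results.MP_f3f922_nt.AllOthersArbitrary
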