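import Pool.Agent.Q270.EN.Ex
import Pool.Agent.Q208.EX.EVS

/-!
# The exact size of the exceptional set in the uniform Elliott problem

`f = cmf Set.univ (sgn a)` is the completely multiplicative function with the value `-1` at the primes of
the finite set `a` and `1` at the other primes; for `n + h ≤ 2 N` only the primes up to `2 N` matter, so
there are `2 ^ π(2 N)` functions (`a` runs over the subsets of `pr Set.univ (2 N)`, the set of the primes up to
`2 N`). `csH s H w N = ∑_{n ≤ N} w(n) ∏_{h ∈ H} f(n + h)` with an arbitrary weight `|w| ≤ 1`, for instance the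
product of the values of arbitrary functions `f_2, ..., f_k` bounded by `1` at further shifts of `n` (in Q1
only `f_1` is restricted). `rho` is the Dickman function. Let `u > 1`, `δ > 0`.

1. (`δ < 1/u`) For all `k` and all large `N`: for every family `W` of at most `exp (N ^ (1/u - δ))` weights all but
   `2 ^ π(2 N) exp (- N ^ (1/u - δ))` of the functions `f` satisfy `|csH| < ρ(u) N` for ALL sets `H` of at most `k`
   shifts `0 ≤ h ≤ N` and all weights of the family.
2. The exponent `1/u` is exact: for `H = {h}` and `w = 1` at least `2 ^ π(2 N) exp (- N ^ (1/u + δ))` of the functions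
   have a sum `≥ ρ(u) N`.
3. In terms of random functions: if a random function `f` (any joint law of the signs at the primes)
   has an entropy deficit (`π(2 N) log 2` minus the entropy of the signs at the primes up to `2 N`) at most
   `N ^ (1/u - δ)`, then `E |csH| ≤ ρ(u) N` for all such `H` and all weights;
4. and this is exact too: some law with deficit at most `N ^ (1/u + δ)` has `E ∑_{n ≤ N} f(n + h) ≥ ρ(u) N`.

Proof: for the uniform law on a set `B` of functions the deficit is `log (2 ^ π(2 N) / |B|)`. For every law the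
sum is decomposed according to the largest prime `p > y` with an odd exponent in `∏ (n + h)`, the sign at
`p` is split into a martingale difference and its conditional mean, and Pinsker's inequality bounds the
conditional means by the deficit; the terms without such a prime are essentially the `n` with `n + h`
`y`-smooth, `y = N ^ (1/u)`. Conversely let `f = 1` at the primes up to `y`.
-/

set_option autoImplicit false

namespace Pool.Agent.Results.MP_f3f922_nt.ExceptionalFunctions

open Finset Filter Topology MeasureTheory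
open Pool.Agent.Q270.EN
open Pool.Agent.Helper923.HRho (rho)

open Classical in
theorem result (u δ : ℝ) (hu : 1 < u) (hδ : 0 < δ) :
    -- 1. few exceptional functions
    (δ < 1 / u → ∀ k : ℕ, ∀ᶠ N : ℕ in atTop, ∀ W : Finset (ℕ → ℂ),
      (W.card : ℝ) ≤ Real.exp ((N : ℝ) ^ (1 / u - δ)) → (∀ w ∈ W, ∀ n, ‖w n‖ ≤ 1) →
      ((((pr Set.univ (2 * N)).powerset.filter fun a => ∃ H : Finset ℕ, H.Nonempty ∧ H.card ≤ k ∧
        H ⊆ range (N + 1) ∧ ∃ w ∈ W, rho u * N ≤ ‖csH (sgn a) H w N‖).card : ℕ) : ℝ) ≤
        2 ^ (pr Set.univ (2 * N)).card * Real.exp (-((N : ℝ) ^ (1 / u - δ)))) ∧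
    -- 2. many exceptional functions
    (∀ h : ℕ, ∀ᶠ N : ℕ in atTop,
      2 ^ (pr Set.univ (2 * N)).card * Real.exp (-((N : ℝ) ^ (1 / u + δ))) ≤
      ((((pr Set.univ (2 * N)).powerset.filter fun a =>
        rho u * N ≤ ∑ n ∈ Icc 1 N, cmf Set.univ (sgn a) (n + h)).card : ℕ) : ℝ)) ∧
    -- 3. every law with a small entropy deficit
    (∀ k : ℕ, ∀ᶠ N : ℕ in atTop,
      ∀ (Ω : Type) [MeasurableSpace Ω] (μ : Measure Ω) [IsProbabilityMeasure μ] (e : ℕ → Ω → ℝ),
      Sgn e → defic μ e (pr Set.univ (2 * N)) ≤ (N : ℝ) ^ (1 / u - δ) →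
      ∀ H : Finset ℕ, H.Nonempty → H.card ≤ k → H ⊆ range (N + 1) →
      ∀ w : ℕ → ℂ, (∀ n, ‖w n‖ ≤ 1) →
      ∫ ω, ‖csH (fun p => e p ω) H w N‖ ∂μ ≤ rho u * N) ∧
    -- 4. a law with a slightly larger deficit
    (∀ h : ℕ, ∀ᶠ N : ℕ in atTop,
      ∃ (Ω : Type) (_ : MeasurableSpace Ω) (μ : Measure Ω) (_ : IsProbabilityMeasure μ)
      (e : ℕ → Ω → ℝ), Sgn e ∧ defic μ e (pr Set.univ (2 * N)) ≤ (N : ℝ) ^ (1 / u + δ) ∧
      rho u * N ≤ ∫ ω, ∑ n ∈ Icc 1 N, cmf Set.univ (fun p => e p ω) (n + h) ∂μ) := by
  have hE : S_EVS := Pool.Agent.Q208.EX.t_EVS Pool.Agent.Q208.EX.t_SMO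
  exact ⟨fun hδu k => ex_upp hE u δ hu hδ hδu k, fun h => ex_low hE u δ hu hδ h,
    fun k => ex_price hE u δ hu hδ k, fun h => ex_law hE u δ hu hδ h⟩

end Pool.Agent.Results.MP_f3f922_nt.ExceptionalFunctions
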