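import Mathlib
import Pool.Agent.Q163.ER.Kall

set_option autoImplicit false

/-!
# One arbitrary function against random ones: natural averages at every scale, uniformly

Let `x` be the random completely multiplicative function with independent fair signs at the primes of a set `P` and
the value `1` at the other primes, where the sum of `1/p` over the `p ∈ P`, `log log N < p ≤ N`, tends to infinity,
and let `g_0, g_1, …` be any fixed functions with values in the unit disc. For almost every choice of the signs, for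
all `k`, all pairwise non-proportional linear forms `L₀, …, L_k` and all choices of functions `g_{s_i}`, the sums
`∑_{n ≤ N} f(L₀(n)) (g_{s_1} x)(L_1(n)) ⋯ (g_{s_k} x)(L_k(n)) e(α n)` are at most `ε N` for EVERY `N ≥ N₀`, for all
multiplicative functions `f` with values in the unit disc (more generally all functions of Kátai's class) and all
real `α`; `N₀` does not depend on `f` and `α`.
-/

namespace Pool.Agent.Results.MP_f3f922_nt.OneArbitraryAllScales

open Finset Filter Topology MeasureTheory ProbabilityTheory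

/-- Kátai's class: `|f| ≤ 1` and `f (p n) = c(p) f'(n)` for all primes `p` not dividing `n`, with `|c|, |f'| ≤ 1`.
It contains all multiplicative functions with values in the unit disc (`c = f' = f`) and all functions
`n ↦ a(Ω(n))` with `|a| ≤ 1`. -/
def Katai (f : ℕ → ℂ) : Prop := (∀ n, 1 ≤ n → ‖f n‖ ≤ 1) ∧ ∃ c f' : ℕ → ℂ, (∀ p : ℕ, p.Prime → ‖c p‖ ≤ 1) ∧
  (∀ n, 1 ≤ n → ‖f' n‖ ≤ 1) ∧ ∀ p n : ℕ, p.Prime → ¬ p ∣ n → f (p * n) = c p * f' n

/-- `e(x) = exp(2 π i x)` -/
noncomputable def e (x : ℝ) : ℂ := Complex.exp (2 * Real.pi * x * Complex.I)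

open Classical in
/-- the sum of `1 / p` over the primes `p ∈ P` with `⌊log log N⌋ < p ≤ N` tends to infinity -/
def Thick (P : Set ℕ) : Prop := Tendsto (fun N : ℕ =>
  ∑ p ∈ (Ioc ⌊Real.log (Real.log N)⌋₊ N).filter (fun p => p.Prime ∧ p ∈ P), (1 : ℝ) / p) atTop atTop

open Classical in
/-- the random function: completely multiplicative with the value `1` or `-1` at the primes `p ∈ P`,
according to `ω p`, and the value `1` at the other primes -/
noncomputable def rand (P : Set ℕ) (ω : ℕ → Bool) (n : ℕ) : ℝ :=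
  ∏ p ∈ n.primeFactors, (if p ∈ P then (if ω p = true then 1 else -1) else 1) ^ n.factorization p

/-- independent fair coins -/
noncomputable def coins : Measure (ℕ → Bool) := Pool.Agent.Q163.RX.cm

/-- **Theorem.** Let `g_0, g_1, …` be functions with values in the unit disc. For almost every choice of the signs,
for all `k ≥ 0`, all pairwise non-proportional forms `a₀ n + b₀`, `a_i n + b_i` (`i < k + 1`), all indices `s_i` and
all `ε > 0` there is `N₀` such that for all `N ≥ N₀`, ALL `f` in Kátai's class and all real `α`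
`|∑_{n ≤ N} f(a₀ n + b₀) ∏_i (g_{s_i} x)(a_i n + b_i) e(α n)| ≤ ε N`. -/
theorem result (P : Set ℕ) (hP : Thick P) (g : ℕ → ℕ → ℂ) (hg : ∀ s n, 1 ≤ n → ‖g s n‖ ≤ 1) :
    ∀ᵐ ω ∂coins, ∀ (k a₀ b₀ : ℕ) (s a b : Fin (k + 1) → ℕ), 1 ≤ a₀ → (∀ i, 1 ≤ a i) →
      (∀ i, a₀ * b i ≠ a i * b₀) → (∀ i j, i ≠ j → a i * b j ≠ a j * b i) →
      ∀ ε : ℝ, 0 < ε → ∃ N₀ : ℕ, ∀ N : ℕ, N₀ ≤ N → ∀ f : ℕ → ℂ, Katai f → ∀ α : ℝ,
        ‖∑ n ∈ Icc 1 N, f (a₀ * n + b₀) *
          (∏ i, (g (s i) (a i * n + b i) * (rand P ω (a i * n + b i) : ℂ))) * e (α * n)‖ ≤ ε * N :=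
  Pool.Agent.Q163.ER.kall P hP g hg

end Pool.Agent.Results.MP_f3f922_nt.OneArbitraryAllScales
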