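import Pool.Agent.Q270.EG.TwoZ
import Pool.Agent.Q270.EF.Conv

/-!
# Elliott's conjecture along all sifted sets

Let `h_0, ..., h_k ≥ 0`, `f_0, ..., f_k` multiplicative with values in the unit disk, `F(n) = f_0(n + h_0) ⋯ f_k(n + h_k)`.
For a finite set `Q` of primes and sets `R_q` of residues modulo the `q ∈ Q` let `hits(n)` be the set of all pairs
`(q, r)`, `q ∈ Q`, `r ∈ R_q`, with `n ≡ r (mod q)`. `Adm h A N κ L Q R` says that the primes in `Q` satisfy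
`A < q ≤ N^{1/A}` and `∑_{q ∈ Q} 1/q ≤ L`, and that `R_q` has at most `κ` elements, none of them `≡ -h_j (mod q)`.
`LogProp X B` is the proportion, with the weights `1/N`, of the scales `N ≤ X` with the property `B`; `mean N φ` is the
mean value of `φ` on `[1, N]`.

1. For all `κ, L` and `ε > 0` there is `A` such that for large `X`, uniformly in ALL `f_j`, all scales `N ≤ X` but a
   logarithmic proportion `ε` have the property
   `|mean(Φ(hits) F) - mean(Φ(hits)) · mean(F)| ≤ ε`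
   for ALL `Q`, `R_q` with `Adm h A N κ L Q R` and ALL functions `|Φ| ≤ 1` of sets of pairs. Examples: `Φ(hits)` is the
   indicator function of the `n` without any hit (a sifted set of positive density), or with a given number of hits.
2. At almost all scales, the asymptotic form of Elliott's conjecture for the shifts `h_j` (in the class of functions
   of the problem) is equivalent to itself for all the averages `mean(Φ(hits) F)`; it follows from the form of the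
   problem.
3. For two shifts, `f_0 = μ` or `f_0 = z^Ω`, `|z| ≤ 1`, `|z - 1| ≥ δ`, and ALL multiplicative `f_1`:
   `|mean(Φ(hits) F)| ≤ ε` in the sense of 1, unconditionally.
-/

set_option autoImplicit false

namespace Pool.Agent.Results.MP_f3f922_nt.SiftedSets

open Finset Filter Pool.Agent.Q270.EA Pool.Agent.Q270.EB Pool.Agent.Q270.EC Pool.Agent.Q270.ED
  Pool.Agent.Q270.EG

open Classical in
/-- the proportion, with the weights `1 / N`, of the scales `N ≤ X` with the property `B` -/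
noncomputable def LogProp (X : ℕ) (B : ℕ → Prop) : ℝ :=
  (∑ N ∈ Icc 1 X, if B N then 1 / (N : ℝ) else 0) / ∑ N ∈ Icc 1 X, 1 / (N : ℝ)

/-- multiplicative with values in the unit disk -/
def Mul1 (f : ArithmeticFunction ℂ) : Prop := f.IsMultiplicative ∧ ∀ n, ‖f n‖ ≤ 1

/-- The hypothesis of the problem (as in `S18973`). -/
def Pret (k : ℕ) (A x : ℝ) (f : Fin (k + 1) → ArithmeticFunction ℂ) : Prop :=
  (∀ i, Mul1 (f i)) ∧
    (∀ q : ℕ, 1 ≤ q → (q : ℝ) ≤ A → ∀ χ : DirichletCharacter ℂ q, ∀ t : ℝ, |t| ≤ A * x ^ k →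
      A ≤ Real.sqrt (∑ p ∈ (Finset.Iic ⌊x⌋₊).filter Nat.Prime,
        (1 - (f 0 p * (starRingEnd ℂ) (χ (p : ZMod q) * (p : ℂ) ^ ((t : ℂ) * Complex.I))).re) / (p : ℝ)))

/-- the product of the shifted functions -/
noncomputable def corr {k : ℕ} (f : Fin (k + 1) → ArithmeticFunction ℂ) (h : Fin (k + 1) → ℕ) (n : ℕ) : ℂ :=
  ∏ i, f i (n + h i)

/-- the mean value on `[1, N]` -/
noncomputable def mean (N : ℕ) (φ : ℕ → ℂ) : ℂ := (∑ n ∈ Icc 1 N, φ n) / N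

/-- the pairs `(q, r)`, `q ∈ Q`, `r ∈ R q`, with `n ≡ r (mod q)` -/
def hits (Q : Finset ℕ) (R : ℕ → Finset ℕ) (n : ℕ) : Finset (ℕ × ℕ) :=
  (Q.biUnion (fun q => (R q).image (fun r => (q, r)))).filter (fun x => n % x.1 = x.2)

/-- the primes `q ∈ Q` are in `(A, N^{1/A}]`, `∑ 1/q ≤ L`; at most `κ` residues `r ∈ R q`, `q ∤ r + h j` -/
def Adm {k : ℕ} (h : Fin (k + 1) → ℕ) (A N κ : ℕ) (L : ℝ) (Q : Finset ℕ) (R : ℕ → Finset ℕ) : Prop :=
  (∀ q ∈ Q, q.Prime ∧ A < q ∧ q ^ A ≤ N ∧ (R q).card ≤ κ ∧ ∀ r ∈ R q, r < q ∧ ∀ j, ¬ q ∣ r + h j) ∧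
    ∑ q ∈ Q, 1 / (q : ℝ) ≤ L

/-- the asymptotic form of Elliott's conjecture at almost all scales, for the shifts `h` -/
def AlmostAll (k : ℕ) (h : Fin (k + 1) → ℕ) : Prop :=
  ∀ ε : ℝ, 0 < ε → ∃ A₀ : ℝ, ∀ A : ℝ, 2 ≤ A → A₀ ≤ A → ∃ X₀ : ℕ, ∀ X : ℕ, X₀ ≤ X →
    ∀ f : Fin (k + 1) → ArithmeticFunction ℂ,
      LogProp X (fun N => A ≤ N ∧ Pret k A N f ∧ ε < ‖mean N (corr f h)‖) ≤ ε

/-- the same for all functions of the hits -/
def AlmostAllSifted (k : ℕ) (h : Fin (k + 1) → ℕ) (κ : ℕ) (L : ℝ) : Prop :=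
  ∀ ε : ℝ, 0 < ε → ∃ z : ℕ, 1 ≤ z ∧ ∃ A₀ : ℝ, ∀ A : ℝ, 2 ≤ A → A₀ ≤ A → ∃ X₀ : ℕ, ∀ X : ℕ, X₀ ≤ X →
    ∀ f : Fin (k + 1) → ArithmeticFunction ℂ,
      LogProp X (fun N => A ≤ N ∧ Pret k A N f ∧ ∃ Q R, Adm h z N κ L Q R ∧
        ∃ Φ : Finset (ℕ × ℕ) → ℂ, (∀ S, ‖Φ S‖ ≤ 1) ∧
          ε < ‖mean N (fun n => Φ (hits Q R n) * corr f h n)‖) ≤ ε

/-- the statement of the problem for the shifts `h` -/
def Elliott (k : ℕ) (h : Fin (k + 1) → ℕ) : Prop :=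
  ∀ ε : ℝ, 0 < ε → ∃ A₀ : ℝ, ∀ A : ℝ, 2 ≤ A → A₀ ≤ A → ∀ x : ℝ, A ≤ x →
    ∀ f : Fin (k + 1) → ArithmeticFunction ℂ, Pret k A x f →
      ‖∑ n ∈ Finset.Icc 1 ⌊x⌋₊, ∏ i, f i (n + h i)‖ / x ≤ ε

lemma bm {f : ArithmeticFunction ℂ} (hf : Mul1 f) : BM f :=
  ⟨hf.2, hf.1.map_one, fun _ _ h => hf.1.map_mul_of_coprime h⟩

lemma mean_eq (N : ℕ) (φ : ℕ → ℂ) : mean N φ = AvN N φ := by
  unfold mean AvN
  rw [one_div_mul_eq_div]

lemma LogProp_eq (X : ℕ) (B : ℕ → Prop) : LogProp X B = LM X B := rfl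

/-- from independence -/
lemma of_ind {k : ℕ} {h : Fin (k + 1) → ℕ} {A N κ : ℕ} {L ε : ℝ} {F : ℕ → ℂ}
    (hI : Ind A A N κ L (fun _ => 1) h F ε) (Q : Finset ℕ) (R : ℕ → Finset ℕ) (hQ : Adm h A N κ L Q R)
    (Φ : Finset (ℕ × ℕ) → ℂ) (hΦ : ∀ S, ‖Φ S‖ ≤ 1) :
    ‖mean N (fun n => Φ (hits Q R n) * F n) - mean N (fun n => Φ (hits Q R n)) * mean N F‖ ≤ ε := by
  have h1 := hI Q R (fun q hq => by
    obtain ⟨e1, e2, e3, e4, e5⟩ := hQ.1 q hq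
    refine ⟨e2, e1, e3, e4, fun r hr => ⟨(e5 r hr).1, fun j => ?_⟩⟩
    rw [one_mul]
    exact (e5 r hr).2 j) hQ.2 Φ hΦ
  rw [mean_eq, mean_eq, mean_eq]
  exact h1

lemma mean_bd (N : ℕ) {Φ : Finset (ℕ × ℕ) → ℂ} (hΦ : ∀ S, ‖Φ S‖ ≤ 1) (Q : Finset ℕ) (R : ℕ → Finset ℕ)
    (m : ℂ) : ‖mean N (fun n => Φ (hits Q R n)) * m‖ ≤ ‖m‖ := by
  rw [norm_mul, mean_eq]
  exact mul_le_of_le_one_left (norm_nonneg _) (norm_AvN_le (fun n => hΦ _) N)

theorem result :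
    (∀ (k : ℕ) (h : Fin (k + 1) → ℕ) (κ : ℕ) (L ε : ℝ), 0 < ε → ∃ A : ℕ, 1 ≤ A ∧ ∃ X₀ : ℕ, ∀ X : ℕ, X₀ ≤ X →
      ∀ f : Fin (k + 1) → ArithmeticFunction ℂ, (∀ i, Mul1 (f i)) →
        LogProp X (fun N => ∃ Q R, Adm h A N κ L Q R ∧ ∃ Φ : Finset (ℕ × ℕ) → ℂ, (∀ S, ‖Φ S‖ ≤ 1) ∧
          ε < ‖mean N (fun n => Φ (hits Q R n) * corr f h n) -
            mean N (fun n => Φ (hits Q R n)) * mean N (corr f h)‖) ≤ ε) ∧
    (∀ (k : ℕ) (h : Fin (k + 1) → ℕ), (Elliott k h → AlmostAll k h) ∧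
      (AlmostAll k h ↔ ∀ (κ : ℕ) (L : ℝ), AlmostAllSifted k h κ L)) ∧
    (∀ (h : Fin 2 → ℕ), h 0 ≠ h 1 → ∀ (κ : ℕ) (L δ ε : ℝ), 0 < δ → 0 < ε →
      ∃ A : ℕ, 1 ≤ A ∧ ∃ X₀ : ℕ, ∀ X : ℕ, X₀ ≤ X → ∀ f₀ : ℕ → ℂ,
        ((∀ n, f₀ n = ((ArithmeticFunction.moebius n : ℤ) : ℂ)) ∨
          ∃ z : ℂ, ‖z‖ ≤ 1 ∧ δ ≤ ‖z - 1‖ ∧ ∀ n, f₀ n = z ^ ArithmeticFunction.cardFactors n) →
        ∀ f₁ : ArithmeticFunction ℂ, Mul1 f₁ →
        LogProp X (fun N => ∃ Q R, Adm h A N κ L Q R ∧ ∃ Φ : Finset (ℕ × ℕ) → ℂ, (∀ S, ‖Φ S‖ ≤ 1) ∧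
          ε < ‖mean N (fun n => Φ (hits Q R n) * (f₀ (n + h 0) * f₁ (n + h 1)))‖) ≤ ε) := by
  classical
  have main : ∀ (k : ℕ) (h : Fin (k + 1) → ℕ) (κ : ℕ) (L ε : ℝ), 0 < ε → ∃ A : ℕ, 1 ≤ A ∧ ∃ X₀ : ℕ,
      ∀ X : ℕ, X₀ ≤ X → ∀ g : Fin (k + 1) → ℕ → ℂ, (∀ j, BM (g j)) →
      LM X (fun N => ¬ Ind A A N κ L (fun _ => 1) h (fun n => ∏ j, g j (n + h j)) ε) ≤ ε := by
    intro k h κ L ε hε
    obtain ⟨A, hA, X₀, h1⟩ := eg_f (k + 1) (fun _ => 1) h 1 le_rfl (fun _ => ⟨le_rfl, dvd_rfl⟩) κ L ε hε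
    refine ⟨A, hA, X₀, fun X hX g hg => ?_⟩
    have h2 := h1 X hX g hg (fun j => ⟨1, by simp, fun m _ => by simp⟩)
    simp only [one_mul] at h2
    exact h2
  refine ⟨fun k h κ L ε hε => ?_, fun k h => ⟨fun hE ε hε => ?_, fun hA κ L ε hε => ?_, fun hS ε hε => ?_⟩,
    fun h hh κ L δ ε hδ hε => ?_⟩
  · obtain ⟨A, hA, X₀, h1⟩ := main k h κ L ε hε
    refine ⟨A, hA, X₀, fun X hX f hf => ?_⟩
    refine le_trans (LM_mono X fun N _ hbad => ?_) (h1 X hX (fun j => f j) (fun j => bm (hf j)))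
    intro hI
    obtain ⟨Q, R, hQ, Φ, hΦ, hlt⟩ := hbad
    exact absurd (of_ind hI Q R hQ Φ hΦ) (not_le.2 hlt)
  · obtain ⟨A₀, hA₀⟩ := hE ε hε
    refine ⟨A₀, fun A hA2 hA => ⟨1, fun X hX f => ?_⟩⟩
    rw [LogProp_eq]
    have h0 : LM X (fun N => A ≤ N ∧ Pret k A N f ∧ ε < ‖mean N (corr f h)‖) ≤ LM X (fun _ => False) := by
      refine LM_mono X fun N hN hbad => ?_
      obtain ⟨e1, e2, e3⟩ := hbad
      have e4 := hA₀ A hA2 hA N e1 f e2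
      rw [Nat.floor_natCast] at e4
      unfold mean corr at e3
      rw [norm_div, Complex.norm_natCast] at e3
      linarith
    refine h0.trans ?_
    unfold LM
    simp only [if_false, sum_const_zero, zero_div]
    exact hε.le
  · obtain ⟨z, hz, X₁, h1⟩ := main k h κ L (ε / 2) (by positivity)
    obtain ⟨A₀, hA₀⟩ := hA (ε / 2) (by positivity)
    refine ⟨z, hz, A₀, fun A hA2 hAA => ?_⟩
    obtain ⟨X₂, h2⟩ := hA₀ A hA2 hAA
    refine ⟨X₁ + X₂, fun X hX f => ?_⟩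
    rw [LogProp_eq]
    by_cases hf : ∀ i, Mul1 (f i)
    · have h3 := h1 X (by omega) (fun j => f j) (fun j => bm (hf j))
      have h4 := h2 X (by omega) f
      rw [LogProp_eq] at h4
      refine (LM_mono X (Q := fun N => (¬ Ind z z N κ L (fun _ => 1) h (fun n => ∏ j, f j (n + h j)) (ε / 2)) ∨
        (A ≤ N ∧ Pret k A N f ∧ ε / 2 < ‖mean N (corr f h)‖)) fun N _ hbad => ?_).trans
        ((LM_or X _ _).trans (by linarith))
      by_contra hcon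
      push Not at hcon
      obtain ⟨e1, e2, Q, R, hQ, Φ, hΦ, hlt⟩ := hbad
      have e3 := hcon.2 e1 e2
      have e4 := of_ind hcon.1 Q R hQ Φ hΦ
      have e5 := mean_bd N hΦ Q R (mean N (corr f h))
      have e6 := norm_add_le (mean N (fun n => Φ (hits Q R n) * corr f h n) -
        mean N (fun n => Φ (hits Q R n)) * mean N (corr f h))
        (mean N (fun n => Φ (hits Q R n)) * mean N (corr f h))
      rw [sub_add_cancel] at e6
      have e7 : ‖mean N (fun n => Φ (hits Q R n) * corr f h n) -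
        mean N (fun n => Φ (hits Q R n)) * mean N (corr f h)‖ ≤ ε / 2 := e4
      linarith
    · have h0 : LM X (fun N => A ≤ N ∧ Pret k A N f ∧ ∃ Q R, Adm h z N κ L Q R ∧
        ∃ Φ : Finset (ℕ × ℕ) → ℂ, (∀ S, ‖Φ S‖ ≤ 1) ∧
          ε < ‖mean N (fun n => Φ (hits Q R n) * corr f h n)‖) ≤ LM X (fun _ => False) :=
        LM_mono X fun N _ hbad => hf hbad.2.1.1
      refine h0.trans ?_
      unfold LM
      simp only [if_false, sum_const_zero, zero_div]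
      exact hε.le
  · obtain ⟨z, hz, A₀, h1⟩ := hS 0 0 ε hε
    refine ⟨A₀, fun A hA2 hAA => ?_⟩
    obtain ⟨X₀, h2⟩ := h1 A hA2 hAA
    refine ⟨X₀, fun X hX f => le_trans (LM_mono X fun N _ hbad => ?_) (h2 X hX f)⟩
    obtain ⟨e1, e2, e3⟩ := hbad
    refine ⟨e1, e2, ∅, fun _ => ∅, ⟨fun q hq => absurd hq (notMem_empty q), by simp⟩, fun _ => 1,
      fun _ => by simp, ?_⟩
    simp only [one_mul]
    exact e3
  · obtain ⟨A, hA, X₁, h1⟩ := main 1 h κ L (ε / 2) (by positivity)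
    obtain ⟨X₂, h2⟩ := two_z (h 0) (h 1) hh δ hδ (ε / 2) (by positivity)
    obtain ⟨X₃, h3⟩ := Pool.Agent.Q270.EF.mean_mu 0 (fun _ => 0) (h 0) (h 1) hh (ε / 2) (by positivity)
    refine ⟨A, hA, X₁ + X₂ + X₃, fun X hX f₀ hf₀ f₁ hf₁ => ?_⟩
    rw [LogProp_eq]
    have hf0 : BM f₀ ∧ LM X (fun N => ε / 2 < ‖AvN N (fun n => f₀ (n + h 0) * f₁ (n + h 1))‖) ≤ ε / 2 := by
      rcases hf₀ with hmu | ⟨z, hz, hz1, hzn⟩
      · have e1 : f₀ = mu := funext fun n => hmu n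
        subst e1
        refine ⟨BM_mu, ?_⟩
        have := h3 X (by omega) (fun n => f₁ n) (bm hf₁)
        simpa using this
      · have e1 : f₀ = fun n => z ^ ArithmeticFunction.cardFactors n := funext hzn
        subst e1
        exact ⟨BM_z hz, h2 X (by omega) z hz hz1 (fun n => f₁ n) (bm hf₁)⟩
    have h4 := h1 X (by omega) (![f₀, fun n => f₁ n] : Fin 2 → ℕ → ℂ) (fun j => by
      fin_cases j
      · exact hf0.1
      · exact bm hf₁)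
    have e0 : (fun n => ∏ j, (![f₀, fun n => f₁ n] : Fin 2 → ℕ → ℂ) j (n + h j)) =
        fun n => f₀ (n + h 0) * f₁ (n + h 1) := by
      funext n
      rw [Fin.prod_univ_two]
      rfl
    rw [e0] at h4
    have h5 := hf0.2
    refine (LM_mono X (Q := fun N => (¬ Ind A A N κ L (fun _ => 1) h (fun n => f₀ (n + h 0) * f₁ (n + h 1))
        (ε / 2)) ∨ ε / 2 < ‖AvN N (fun n => f₀ (n + h 0) * f₁ (n + h 1))‖) fun N _ hbad => ?_).trans
        ((LM_or X _ _).trans (by linarith))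
    by_contra hcon
    push Not at hcon
    obtain ⟨Q, R, hQ, Φ, hΦ, hlt⟩ := hbad
    have e4 := of_ind hcon.1 Q R hQ Φ hΦ
    have e5 := mean_bd N hΦ Q R (mean N (fun n => f₀ (n + h 0) * f₁ (n + h 1)))
    have e6 := norm_add_le (mean N (fun n => Φ (hits Q R n) * (f₀ (n + h 0) * f₁ (n + h 1))) -
      mean N (fun n => Φ (hits Q R n)) * mean N (fun n => f₀ (n + h 0) * f₁ (n + h 1)))
      (mean N (fun n => Φ (hits Q R n)) * mean N (fun n => f₀ (n + h 0) * f₁ (n + h 1)))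
    rw [sub_add_cancel] at e6
    have e7 := hcon.2
    rw [← mean_eq] at e7
    linarith

end Pool.Agent.Results.MP_f3f922_nt.SiftedSets
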